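import Mathlib

/-!
# Numerators of binomial sums with odd powers in the denominator

For `S m n = ∑_{k=1}^n C(n,k)^2 C(n+k,k)^2 / k^(2m+1)` and every prime `p > 2m+5`, the numerator
of `S m (p-1)` is divisible by `p^4`.
-/

open Finset

namespace Pool.Agent.Results.MP_a0b46e_nt.FourthPower

/-- The rational number `S_m(n) = ∑_{k=1}^n C(n,k)^2 C(n+k,k)^2 / k^(2m+1)`. -/
def S (m n : ℕ) : ℚ :=
  ∑ k ∈ Icc 1 n, ((n.choose k : ℚ) ^ 2 * ((n + k).choose k : ℚ) ^ 2) / (k : ℚ) ^ (2 * m + 1)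

/-- `u_m(n)`: the numerator of `S_m(n)` in lowest terms. -/
def u (m n : ℕ) : ℤ := (S m n).num

/-- `(p + k) C(p-1,k) C(p-1+k,k) (k!)^2 = p ∏_{i=1}^k (p^2 - i^2)`. -/
theorem prod_formula (p k : ℕ) (hk : k < p) :
    ((p : ℤ) + k) * ((p - 1).choose k : ℤ) * ((p - 1 + k).choose k : ℤ) * ((k.factorial : ℤ)) ^ 2 =
      (p : ℤ) * ∏ i ∈ Icc 1 k, ((p : ℤ) ^ 2 - (i : ℤ) ^ 2) := by
  induction k with
  | zero => simp
  | succ k ih =>
    have ih := ih (by omega)
    rw [Finset.prod_Icc_succ_top (by omega)]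
    have h1 : ((k : ℤ) + 1) * ((p - 1).choose (k + 1) : ℤ) = ((p : ℤ) - 1 - k) * ((p - 1).choose k : ℤ) := by
      have := Nat.choose_succ_right_eq (p - 1) k
      have e : ((p - 1 - k : ℕ) : ℤ) = (p : ℤ) - 1 - k := by
        have : p - 1 - k + (k + 1) = p := by omega
        have := congrArg (Nat.cast : ℕ → ℤ) this
        push_cast at this; linarith
      have := congrArg (Nat.cast : ℕ → ℤ) this
      push_cast at this
      rw [e] at this
      linarith
    have h2 : ((k : ℤ) + 1) * ((p - 1 + (k + 1)).choose (k + 1) : ℤ) =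
        ((p : ℤ) + k) * ((p - 1 + k).choose k : ℤ) := by
      have h := Nat.add_one_mul_choose_eq (p - 1 + k) k
      have e : p - 1 + k + 1 = p - 1 + (k + 1) := by ring
      have e2 : (p - 1 + k + 1) = p + k := by omega
      have := congrArg (Nat.cast : ℕ → ℤ) h
      rw [e2] at this
      rw [← e, e2]
      push_cast at this ⊢
      linarith
    have hf : (((k + 1).factorial : ℕ) : ℤ) = ((k : ℤ) + 1) * (k.factorial : ℤ) := by
      rw [Nat.factorial_succ]; push_cast; ring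
    rw [hf]
    push_cast
    have key : ((p : ℤ) + (k + 1)) * ((p - 1).choose (k + 1) : ℤ) *
        ((p - 1 + (k + 1)).choose (k + 1) : ℤ) * (((k : ℤ) + 1) * (k.factorial : ℤ)) ^ 2 =
        ((p : ℤ) + (k + 1)) * (((k : ℤ) + 1) * ((p - 1).choose (k + 1) : ℤ)) *
        (((k : ℤ) + 1) * ((p - 1 + (k + 1)).choose (k + 1) : ℤ)) * ((k.factorial : ℤ)) ^ 2 := by
      ring
    rw [key, h1, h2]
    have : ((p : ℤ) + (k + 1)) * (((p : ℤ) - 1 - k) * ((p - 1).choose k : ℤ)) *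
        (((p : ℤ) + k) * ((p - 1 + k).choose k : ℤ)) * ((k.factorial : ℤ)) ^ 2 =
        (((p : ℤ) + k) * ((p - 1).choose k : ℤ) * ((p - 1 + k).choose k : ℤ) *
          ((k.factorial : ℤ)) ^ 2) * ((p : ℤ) ^ 2 - ((k : ℤ) + 1) ^ 2) := by
      ring
    rw [this, ih]
    ring


section modsq

variable (p : ℕ) [hp : Fact p.Prime]

theorem coprime_sq {k : ℕ} (h1 : 1 ≤ k) (h2 : k < p) : Nat.Coprime k (p ^ 2) :=
  Nat.Coprime.pow_right 2 (Nat.coprime_of_lt_prime (by omega) h2 hp.out).symm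

omit hp in
theorem p_sq_zero : (p : ZMod (p ^ 2)) ^ 2 = 0 := by
  have := ZMod.natCast_self (p ^ 2)
  push_cast at this
  exact this

/-- the inverse of `k` modulo `p^2` -/
noncomputable def v (k : ℕ) : ZMod (p ^ 2) := (k : ZMod (p ^ 2))⁻¹

theorem mul_v {k : ℕ} (h1 : 1 ≤ k) (h2 : k < p) : (k : ZMod (p ^ 2)) * v p k = 1 :=
  ZMod.coe_mul_inv_eq_one k (coprime_sq p h1 h2)

theorem p_mul_eq_zero (x : ZMod (p ^ 2))
    (hx : ZMod.castHom (dvd_pow_self p two_ne_zero) (ZMod p) x = 0) :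
    (p : ZMod (p ^ 2)) * x = 0 := by
  have : NeZero (p ^ 2) := ⟨pow_ne_zero 2 hp.out.ne_zero⟩
  obtain ⟨n, rfl⟩ := ZMod.natCast_zmod_surjective x
  rw [map_natCast] at hx
  rw [ZMod.natCast_eq_zero_iff] at hx
  obtain ⟨c, rfl⟩ := hx
  have := p_sq_zero p
  push_cast
  calc (p : ZMod (p ^ 2)) * (p * c) = p ^ 2 * c := by ring
    _ = 0 := by rw [this, zero_mul]

theorem sum_inv_pow (e : ℕ) (he0 : 0 < e) (he : e < p - 1) :
    ∑ k ∈ Icc 1 (p - 1), ((k : ZMod p)⁻¹) ^ e = 0 := by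
  have h1 : ∑ x : ZMod p, (x⁻¹) ^ e = 0 := by
    have h := FiniteField.sum_pow_lt_card_sub_one (ZMod p) e (by rw [ZMod.card]; exact he)
    rw [← h]
    exact Equiv.sum_comp (Equiv.inv (ZMod p)) (fun x : ZMod p => x ^ e)
  rw [← h1]
  have h2 : ∑ x : ZMod p, (x⁻¹) ^ e = ∑ x ∈ Finset.univ.erase (0 : ZMod p), (x⁻¹) ^ e := by
    rw [← Finset.add_sum_erase _ _ (Finset.mem_univ (0 : ZMod p))]
    simp [he0.ne']
  rw [h2]
  refine Finset.sum_nbij (fun k : ℕ => (k : ZMod p)) ?_ ?_ ?_ ?_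
  · intro k hk
    rw [Finset.mem_Icc] at hk
    rw [Finset.mem_erase]
    refine ⟨?_, Finset.mem_univ _⟩
    intro h0
    rw [ZMod.natCast_eq_zero_iff] at h0
    exact absurd (Nat.le_of_dvd (by omega) h0) (by have := hp.out.two_le; omega)
  · intro a ha b hb hab
    simp only [Finset.coe_Icc, Set.mem_Icc] at ha hb
    have hab' : (a : ZMod p) = (b : ZMod p) := hab
    rw [ZMod.natCast_eq_natCast_iff'] at hab'
    have := hp.out.two_le
    rwa [Nat.mod_eq_of_lt (by omega), Nat.mod_eq_of_lt (by omega)] at hab'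
  · intro x hx
    simp only [Finset.coe_erase, Finset.coe_univ, Set.mem_sdiff, Set.mem_univ, true_and,
      Set.mem_singleton_iff] at hx
    refine ⟨x.val, ?_, ?_⟩
    · simp only [Finset.coe_Icc, Set.mem_Icc]
      have h3 : x.val ≠ 0 := by
        intro h; exact hx ((ZMod.val_eq_zero x).1 h)
      have h4 := ZMod.val_lt x
      omega
    · exact ZMod.natCast_zmod_val x
  · intro k hk; rfl

theorem p_sum_v (e : ℕ) (he0 : 0 < e) (he : e < p - 1) :
    (p : ZMod (p ^ 2)) * ∑ k ∈ Icc 1 (p - 1), (v p k) ^ e = 0 := by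
  apply p_mul_eq_zero
  rw [map_sum, ← sum_inv_pow p e he0 he]
  refine Finset.sum_congr rfl ?_
  intro k hk
  rw [Finset.mem_Icc] at hk
  rw [map_pow]
  congr 1
  have h1 := mul_v p hk.1 (by have := hp.out.two_le; omega)
  have h2 := congrArg (ZMod.castHom (dvd_pow_self p two_ne_zero) (ZMod p)) h1
  rw [map_mul, map_one, map_natCast] at h2
  exact eq_inv_of_mul_eq_one_right h2

omit hp in
theorem one_add_pow_sq (x : ZMod (p ^ 2)) (s : ℕ) :
    (1 + (p : ZMod (p ^ 2)) * x) ^ s = 1 + (s : ZMod (p ^ 2)) * (p : ZMod (p ^ 2)) * x := by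
  induction s with
  | zero => simp
  | succ s ih =>
    rw [pow_succ (1 + (p : ZMod (p ^ 2)) * x) s, ih]
    have h := p_sq_zero p
    push_cast
    linear_combination ((s : ZMod (p ^ 2)) * x ^ 2) * h

theorem v_reflect {k : ℕ} (h1 : 1 ≤ k) (h2 : k < p) :
    v p (p - k) = -((1 + (p : ZMod (p ^ 2)) * v p k) * v p k) := by
  have hk := mul_v p h1 h2
  have hk' := mul_v p (k := p - k) (by omega) (by omega)
  rw [Nat.cast_sub h2.le] at hk'
  have hsq := p_sq_zero p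
  have h3 : ((p : ZMod (p ^ 2)) - k) * (-((1 + (p : ZMod (p ^ 2)) * v p k) * v p k)) = 1 := by
    linear_combination (1 + (p : ZMod (p^2)) * v p k) * hk - (v p k) ^ 2 * hsq
  calc v p (p - k) = v p (p - k) * (((p : ZMod (p ^ 2)) - k) *
        (-((1 + (p : ZMod (p ^ 2)) * v p k) * v p k))) := by rw [h3, mul_one]
    _ = (((p : ZMod (p ^ 2)) - k) * v p (p - k)) *
        (-((1 + (p : ZMod (p ^ 2)) * v p k) * v p k)) := by ring
    _ = _ := by rw [hk', one_mul]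

theorem sum_v_odd (m : ℕ) (hm : 2 * m + 5 < p) :
    ∑ k ∈ Icc 1 (p - 1), (v p k) ^ (2 * m + 3) = 0 := by
  have hrefl : ∑ k ∈ Icc 1 (p - 1), (v p k) ^ (2 * m + 3) =
      ∑ k ∈ Icc 1 (p - 1), (v p (p - k)) ^ (2 * m + 3) := by
    refine Finset.sum_nbij' (fun k => p - k) (fun k => p - k) ?_ ?_ ?_ ?_ ?_
    · intro k hk; rw [Finset.mem_Icc] at hk ⊢; omega
    · intro k hk; rw [Finset.mem_Icc] at hk ⊢; omega
    · intro k hk; rw [Finset.mem_Icc] at hk; omega
    · intro k hk; rw [Finset.mem_Icc] at hk; omega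
    · intro k hk; rw [Finset.mem_Icc] at hk
      have : p - (p - k) = k := by omega
      rw [this]
  have hterm : ∀ k ∈ Icc 1 (p - 1), (v p (p - k)) ^ (2 * m + 3) =
      -(v p k) ^ (2 * m + 3) -
        ((2 * m + 3 : ℕ) : ZMod (p ^ 2)) * p * (v p k) ^ (2 * m + 4) := by
    intro k hk
    rw [Finset.mem_Icc] at hk
    rw [v_reflect p hk.1 (by omega), Odd.neg_pow ⟨m + 1, by ring⟩, mul_pow, one_add_pow_sq]
    ring
  have hz := p_sum_v p (2 * m + 4) (by omega) (by omega)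
  rw [Finset.sum_congr rfl hterm, Finset.sum_sub_distrib, Finset.sum_neg_distrib,
    ← Finset.mul_sum] at hrefl
  have h2 : (2 : ZMod (p ^ 2)) * ∑ k ∈ Icc 1 (p - 1), (v p k) ^ (2 * m + 3) = 0 := by
    have : ((2 * m + 3 : ℕ) : ZMod (p ^ 2)) * p * ∑ k ∈ Icc 1 (p - 1), (v p k) ^ (2 * m + 4) = 0 := by
      rw [mul_assoc, hz, mul_zero]
    rw [this] at hrefl
    linear_combination hrefl
  have hu : (2 : ZMod (p ^ 2)) * v p 2 = 1 := by
    have := mul_v p (k := 2) (by norm_num) (by omega)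
    exact_mod_cast this
  calc ∑ k ∈ Icc 1 (p - 1), (v p k) ^ (2 * m + 3)
      = (2 * v p 2) * ∑ k ∈ Icc 1 (p - 1), (v p k) ^ (2 * m + 3) := by rw [hu, one_mul]
    _ = v p 2 * (2 * ∑ k ∈ Icc 1 (p - 1), (v p k) ^ (2 * m + 3)) := by ring
    _ = 0 := by rw [h2, mul_zero]

omit hp in
theorem prod_Icc_cast (k : ℕ) :
    ∏ i ∈ Icc 1 k, (i : ZMod (p ^ 2)) = (k.factorial : ZMod (p ^ 2)) := by
  induction k with
  | zero => simp
  | succ k ih =>
    rw [Finset.prod_Icc_succ_top (by omega), ih, Nat.factorial_succ]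
    push_cast
    ring

/-- The quotient `C(p-1,k) C(p-1+k,k) / p`. -/
theorem exists_t {k : ℕ} (h1 : 1 ≤ k) (h2 : k < p) :
    ∃ t : ℕ, (p - 1).choose k * (p - 1 + k).choose k = p * t ∧
      ((t : ZMod (p ^ 2))) ^ 2 = ((k : ZMod (p ^ 2)) - p) ^ 2 * (v p k) ^ 4 := by
  have hdvd : p ∣ (p - 1 + k).choose k := by
    have := Nat.Prime.dvd_choose_add hp.out (a := k) (b := p - 1) h2
      (by have := hp.out.two_le; omega) (by omega)
    rwa [add_comm] at this
  obtain ⟨c, hc⟩ := hdvd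
  refine ⟨(p - 1).choose k * c, by rw [hc]; ring, ?_⟩
  set t := (p - 1).choose k * c with ht
  have hprod := prod_formula p k h2
  have hp0 : (p : ℤ) ≠ 0 := by exact_mod_cast hp.out.ne_zero
  have h3 : ((p : ℤ) + k) * (t : ℤ) * ((k.factorial : ℤ)) ^ 2 =
      ∏ i ∈ Icc 1 k, ((p : ℤ) ^ 2 - (i : ℤ) ^ 2) := by
    apply mul_left_cancel₀ hp0
    rw [← hprod, ht, hc]
    push_cast
    ring
  have h4 := congrArg (Int.cast : ℤ → ZMod (p ^ 2)) h3
  push_cast at h4
  have hsq := p_sq_zero p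
  have h5 : ∏ i ∈ Icc 1 k, ((p : ZMod (p ^ 2)) ^ 2 - (i : ZMod (p ^ 2)) ^ 2) =
      (-1) ^ k * (k.factorial : ZMod (p ^ 2)) ^ 2 := by
    rw [hsq]
    have : ∀ i ∈ Icc 1 k, (0 : ZMod (p ^ 2)) - (i : ZMod (p ^ 2)) ^ 2 =
        (-1) * (i : ZMod (p ^ 2)) ^ 2 := by
      intro i _; ring
    rw [Finset.prod_congr rfl this, Finset.prod_mul_distrib, Finset.prod_const, Finset.prod_pow]
    congr 1
    · simp
    · congr 1
      exact prod_Icc_cast p k
  rw [h5] at h4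
  have hcop : Nat.Coprime k.factorial (p ^ 2) := by
    exact Nat.Coprime.pow_right 2 (hp.out.coprime_factorial_of_lt h2).symm
  have hunit : IsUnit ((k.factorial : ZMod (p ^ 2)) ^ 2) := by
    apply IsUnit.pow
    exact (ZMod.unitOfCoprime k.factorial hcop).isUnit
  have h6 : ((p : ZMod (p ^ 2)) + k) * t = (-1) ^ k := hunit.mul_right_cancel h4
  have hk := mul_v p h1 h2
  have h7 : (k : ZMod (p ^ 2)) ^ 2 * t = (k - p) * (-1) ^ k := by
    rw [← h6]; linear_combination (t : ZMod (p^2)) * hsq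
  have h8 : (t : ZMod (p ^ 2)) = (v p k) ^ 2 * ((k - p) * (-1) ^ k) := by
    rw [← h7]
    have : (v p k) ^ 2 * ((k : ZMod (p ^ 2)) ^ 2 * t) = ((k : ZMod (p ^ 2)) * v p k) ^ 2 * t := by
      ring
    rw [this, hk]; ring
  rw [h8]
  have hsign : ((-1 : ZMod (p ^ 2)) ^ k) ^ 2 = 1 := by
    rw [← pow_mul, mul_comm, pow_mul]; simp
  calc ((v p k) ^ 2 * (((k : ZMod (p ^ 2)) - p) * (-1) ^ k)) ^ 2
      = (v p k) ^ 4 * ((k : ZMod (p ^ 2)) - p) ^ 2 * ((-1) ^ k) ^ 2 := by ring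
    _ = _ := by rw [hsign]; ring

end modsq

/-- For every `m ≥ 0` and every prime `p > 2m+5`, `p^4` divides the numerator of `S_m(p-1)`.
In particular the congruence holds outside the finite set of primes `p ≤ 2m+5`. -/
theorem result (m p : ℕ) (hp : p.Prime) (hm : 2 * m + 5 < p) : (p : ℤ) ^ 4 ∣ u m (p - 1) := by
  have : Fact p.Prime := ⟨hp⟩
  have hp2 := hp.two_le
  -- choose the quotients
  have hex : ∀ k : ℕ, ∃ t : ℕ, (1 ≤ k ∧ k < p) →
      ((p - 1).choose k * (p - 1 + k).choose k = p * t ∧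
      ((t : ZMod (p ^ 2))) ^ 2 = ((k : ZMod (p ^ 2)) - p) ^ 2 * (v p k) ^ 4) := by
    intro k
    by_cases h : 1 ≤ k ∧ k < p
    · obtain ⟨t, ht⟩ := exists_t p h.1 h.2
      exact ⟨t, fun _ => ht⟩
    · exact ⟨0, fun h' => absurd h' h⟩
  choose t ht using hex
  -- the cofactors of the factorial
  set D : ℕ := (p - 1).factorial with hD
  set c : ℕ → ℕ := fun k => D / k with hc
  have hck : ∀ k, 1 ≤ k → k < p → k * c k = D := by
    intro k h1 h2
    exact Nat.mul_div_cancel' (Nat.dvd_factorial (by omega) (by omega))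
  set M : ℕ := ∑ k ∈ Icc 1 (p - 1), (t k) ^ 2 * (c k) ^ (2 * m + 1) with hM
  -- `M` vanishes modulo `p^2`
  have hsq := p_sq_zero p
  have hMz : (M : ZMod (p ^ 2)) = 0 := by
    rw [hM]
    push_cast
    have hterm : ∀ k ∈ Icc 1 (p - 1), (t k : ZMod (p ^ 2)) ^ 2 * (c k : ZMod (p ^ 2)) ^ (2 * m + 1) =
        (D : ZMod (p ^ 2)) ^ (2 * m + 1) *
          ((v p k) ^ (2 * m + 3) - 2 * (p * (v p k) ^ (2 * m + 4))) := by
      intro k hk
      rw [Finset.mem_Icc] at hk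
      have hkp : k < p := by omega
      have hv := mul_v p hk.1 hkp
      have h1 := (ht k ⟨hk.1, hkp⟩).2
      have h2 : (c k : ZMod (p ^ 2)) = D * v p k := by
        have h3 := congrArg (Nat.cast : ℕ → ZMod (p ^ 2)) (hck k hk.1 hkp)
        push_cast at h3
        rw [← h3]
        calc (c k : ZMod (p ^ 2)) = (k * v p k) * c k := by rw [hv, one_mul]
          _ = _ := by ring
      rw [h1, h2]
      have h4 : ((k : ZMod (p ^ 2)) - p) ^ 2 * (v p k) ^ 4 = (v p k) ^ 2 - 2 * (p * (v p k) ^ 3) := by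
        linear_combination (v p k) ^ 4 * hsq +
          ((v p k) ^ 2 * ((k : ZMod (p ^ 2)) * v p k + 1) - 2 * p * (v p k) ^ 3) * hv
      rw [h4, mul_pow]
      ring
    rw [Finset.sum_congr rfl hterm, ← Finset.mul_sum, Finset.sum_sub_distrib, ← Finset.mul_sum,
      ← Finset.mul_sum, sum_v_odd p m hm, p_sum_v p (2 * m + 4) (by omega) (by omega)]
    ring
  have hMdvd : p ^ 2 ∣ M := (ZMod.natCast_eq_zero_iff M (p ^ 2)).1 hMz
  -- `D^(2m+1) S = p^2 M`
  have hDpos : (D : ℚ) ≠ 0 := by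
    rw [hD]; exact_mod_cast (Nat.factorial_ne_zero _)
  have hS : (D : ℚ) ^ (2 * m + 1) * S m (p - 1) = (p : ℚ) ^ 2 * (M : ℚ) := by
    unfold S
    rw [hM]
    push_cast
    rw [Finset.mul_sum, Finset.mul_sum]
    refine Finset.sum_congr rfl ?_
    intro k hk
    rw [Finset.mem_Icc] at hk
    have hkp : k < p := by omega
    have h1 := (ht k ⟨hk.1, hkp⟩).1
    have h2 := congrArg (Nat.cast : ℕ → ℚ) (hck k hk.1 hkp)
    have h3 := congrArg (Nat.cast : ℕ → ℚ) h1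
    push_cast at h2 h3
    have hk0 : (k : ℚ) ≠ 0 := by
      have : k ≠ 0 := by omega
      exact_mod_cast this
    rw [← mul_pow, h3, ← h2, mul_pow (k : ℚ) (c k : ℚ)]
    field_simp
  set q := S m (p - 1) with hq
  have hnum : q.num * (D : ℤ) ^ (2 * m + 1) = (p : ℤ) ^ 2 * M * q.den := by
    have h3 : (q.num : ℚ) = q * q.den := (Rat.mul_den_eq_num q).symm
    have h2 : (q.num : ℚ) * (D : ℚ) ^ (2 * m + 1) = (p : ℚ) ^ 2 * M * q.den := by
      rw [← hS, h3]
      ring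
    exact_mod_cast h2
  have hdvd : (p : ℤ) ^ 4 ∣ q.num * (D : ℤ) ^ (2 * m + 1) := by
    rw [hnum]
    obtain ⟨e, he⟩ := hMdvd
    rw [he]
    push_cast
    exact ⟨e * q.den, by ring⟩
  have hcop : IsCoprime ((p : ℤ) ^ 4) ((D : ℤ) ^ (2 * m + 1)) := by
    apply IsCoprime.pow
    rw [Nat.isCoprime_iff_coprime]
    rw [hD]
    exact hp.coprime_factorial_of_lt (by omega)
  exact hcop.dvd_of_dvd_mul_right hdvd

end Pool.Agent.Results.MP_a0b46e_nt.FourthPower
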